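import Pool.Agent.V7H11.LF.Adv

/-!
# The bounded faces of a polyhedron: the number of linear programming tests

Systems, polyhedra, bounded faces and Hasse diagrams are those of `Pool.Agent.W986.BF.Defs`
(starting files): `LinSys`, `polyhedron`, `Instance`, `boundedFaces`, `tight`, `IsHasse`.
The model of computation is in `Pool.Agent.V7H11.LF.Alg`: an algorithm (`Alg`) is a decision tree
that knows the number of the inequalities and may ask, for a set `J` of inequalities and an
inequality `i`, about the set `face S J` of the points of the polyhedron at which all inequalities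
in `J` are tight: whether it is nonempty (`Query.feas`), whether it is bounded (`Query.bdd`),
whether the slack of `i` vanishes on it (`Query.zero`), whether the slack of `i` is bounded on it
(`Query.fin`). So it learns the status (infeasible, zero, positive, infinite) of the linear
programs that minimize or maximize a slack over such a set (the minimum is zero if and only if
`face S (insert i J)` is not empty). Its cost is the number of these tests.
-/

set_option autoImplicit false

namespace Pool.Agent.Results.MP_585ca9_lc.LinearProgrammingTestsH11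

open Pool.Agent.W986.BF Pool.Agent.V7H11.LF

/-- Let `m` be the number of the inequalities and `N` the number of the nonempty bounded faces.

1. For every pointed polyhedron `N` is finite, and a minimal set of inequalities that cannot be
   tight together has at most `log₂ (N + 1)` members.
2. The explicit algorithm `main m` (which asks only for nonemptiness and boundedness) finds the
   Hasse diagram of the bounded faces of every pointed polyhedron with at most
   `(m N + 2) ^ (log₂ (N + 1) + 1) + N ^ 2` tests.
3. Every algorithm that is correct for the unbounded pointed polyhedra given by `m = 2 k n + k`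
   inequalities makes at least `n ^ k / 2` tests on one of them with `N = 2 ^ k - 1`.
4. So no algorithm has a number of tests polynomial in `m` and `N`. -/
theorem result :
    (∀ S : LinSys, ((polyhedron S).extremePoints ℝ).Nonempty → (boundedFaces S).Finite ∧
      ∀ J : Finset ℕ, (∀ j ∈ J, j < S.2.length) → ¬ (face S J).Nonempty →
        (∀ i ∈ J, (face S (J.erase i)).Nonempty) →
        J.card ≤ Nat.log 2 ((boundedFaces S).ncard + 1)) ∧
    (∀ S : LinSys, ((polyhedron S).extremePoints ℝ).Nonempty →
      IsHasse S ((main S.2.length).run (answers S)) ∧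
      (main S.2.length).cost (answers S) ≤
        (S.2.length * (boundedFaces S).ncard + 2) ^ (Nat.log 2 ((boundedFaces S).ncard + 1) + 1) +
          (boundedFaces S).ncard ^ 2) ∧
    (∀ k n : ℕ, 1 ≤ k → 1 ≤ n → ∀ A : Alg (List (List ℕ) × List (ℕ × ℕ)),
      (∀ S : LinSys, Instance S → S.2.length = 2 * (k * n) + k →
        IsHasse S (A.run (answers S))) →
      ∃ S : LinSys, Instance S ∧ S.2.length = 2 * (k * n) + k ∧
        (boundedFaces S).ncard = 2 ^ k - 1 ∧ n ^ k ≤ 2 * A.cost (answers S)) ∧
    ¬ ∃ (A : ℕ → Alg (List (List ℕ) × List (ℕ × ℕ))) (c : ℕ), ∀ S : LinSys, Instance S →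
      IsHasse S ((A S.2.length).run (answers S)) ∧
      (A S.2.length).cost (answers S) ≤ (S.2.length + (boundedFaces S).ncard + 2) ^ c := by
  refine ⟨fun S hS => ⟨finite_boundedFaces S, fun J h1 h2 h3 => ?_⟩, fun S hS => main_spec S hS,
    fun k n hk hn A hA => ⟨_, lower hk hn A hA⟩, ?_⟩
  · exact Nat.le_log_of_pow_le (by norm_num) (helly_spec S hS J h1 h2 h3)
  · rintro ⟨A, c, hA⟩
    set k := 2 * c + 4 with hk
    set n := 2 ^ k with hn
    have hk1 : 1 ≤ k := by omega
    have hn1 : 1 ≤ n := Nat.one_le_two_pow
    obtain ⟨h1, h2, h3, h4⟩ := lower hk1 hn1 (A (2 * (k * n) + k)) fun S hS hm => by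
      have := (hA S hS).1
      rwa [hm] at this
    have h5 := (hA _ h1).2
    rw [h2, h3] at h5
    have h6 : k < 2 ^ k := Nat.lt_two_pow_self
    have h7 : 2 * (k * n) + k + (2 ^ k - 1) + 2 ≤ 2 ^ (2 * k + 3) := by
      have e1 : 2 ^ (2 * k + 3) = 8 * (n * n) := by rw [hn]; ring
      have e2 : k * n ≤ n * n := Nat.mul_le_mul_right _ (by omega)
      have e3 : n ≤ n * n := Nat.le_mul_of_pos_left _ (by omega)
      rw [e1]
      omega
    have h8 : n ^ k ≤ 2 * (2 ^ (2 * k + 3)) ^ c :=
      h4.trans (Nat.mul_le_mul_left _ (h5.trans (Nat.pow_le_pow_left h7 c)))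
    have e1 : n ^ k = 2 ^ (k * k) := by rw [hn, ← pow_mul]
    have e2 : 2 * (2 ^ (2 * k + 3)) ^ c = 2 ^ ((2 * k + 3) * c + 1) := by
      rw [← pow_mul, pow_succ]; ring
    rw [e1, e2] at h8
    have h9 := (Nat.pow_le_pow_iff_right (by norm_num : 1 < 2)).1 h8
    rw [hk] at h9
    nlinarith

end Pool.Agent.Results.MP_585ca9_lc.LinearProgrammingTestsH11
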